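import Mathlib

/-!
Avoiding subsets of the Cantor space: definitions.
-/

set_option autoImplicit false

open Cardinal Set

namespace Pool.Agent.Lib.MP_24213f_lc

/-- The Cantor space with the product topology. -/
abbrev Cantor := ℕ → Bool

/-- `A` is `κ`-dense: it meets each nonempty open set in exactly `κ` points. -/
def IsKDense (κ : Cardinal.{0}) (A : Set Cantor) : Prop :=
  ∀ U : Set Cantor, IsOpen U → U.Nonempty → #(A ∩ U : Set Cantor) = κ

/-- `X` strongly avoids `Y`: for each `Z ⊆ X` with `|Z| = |X|`, each continuous `f : Z → Y` has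
an image of cardinality less than `|X|`. -/
def StronglyAvoids (X Y : Set Cantor) : Prop :=
  ∀ Z : Set Cantor, Z ⊆ X → #Z = #X → ∀ f : Z → Y, Continuous f → #(range f) < #X

/-- `X` totally avoids `Y`: for each `Z ⊆ X` with `|Z| = |X|`, each continuous `f : Z → Y` has
a countable image. -/
def TotallyAvoids (X Y : Set Cantor) : Prop :=
  ∀ Z : Set Cantor, Z ⊆ X → #Z = #X → ∀ f : Z → Y, Continuous f → (range f).Countable

/-- A preorder is `σ`-centered: it is a union of countably many sets each finite subset of which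
has a lower bound in the preorder. -/
def IsSigmaCentered (P : Type) [Preorder P] : Prop :=
  ∃ S : ℕ → Set P, (∀ p, ∃ n, p ∈ S n) ∧
    ∀ n, ∀ F : Finset P, (∀ p ∈ F, p ∈ S n) → ∃ r, ∀ p ∈ F, r ≤ p

/-- A subset of a preorder is a filter: it is nonempty, upward closed and downward directed. -/
def IsFilterSet {P : Type} [Preorder P] (G : Set P) : Prop :=
  G.Nonempty ∧ (∀ p ∈ G, ∀ q, p ≤ q → q ∈ G) ∧ ∀ p ∈ G, ∀ q ∈ G, ∃ r ∈ G, r ≤ p ∧ r ≤ q

/-- Martin's axiom for `σ`-centered preorders: for each family of fewer than `𝔠` dense subsets of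
a nonempty `σ`-centered preorder some filter meets all of them. -/
def MASigmaCentered : Prop :=
  ∀ (P : Type) [Preorder P] [Nonempty P], IsSigmaCentered P →
    ∀ 𝒟 : Set (Set P), #𝒟 < 𝔠 → (∀ D ∈ 𝒟, ∀ p, ∃ q ∈ D, q ≤ p) →
      ∃ G : Set P, IsFilterSet G ∧ ∀ D ∈ 𝒟, (D ∩ G).Nonempty

end Pool.Agent.Lib.MP_24213f_lc
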