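import Pool.Agent.Lib.MP_24213f_lc.SigmaCont

/-!
Under Martin's axiom for `σ`-centered preorders and the failure of the continuum hypothesis, no
`𝔠`-dense set totally avoids another.
-/

set_option autoImplicit false

open Cardinal Set Topology

namespace Pool.Agent.Lib.MP_24213f_lc

theorem mk_cantor : #Cantor = 𝔠 := by
  simp only [Cantor, mk_pi, mk_bool, prod_const, lift_id, mk_nat]
  exact two_power_aleph0

theorem IsKDense.mk_eq {X : Set Cantor} (hX : IsKDense 𝔠 X) : #X = 𝔠 := by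
  have h := hX univ isOpen_univ univ_nonempty
  rwa [inter_univ] at h

theorem isClopen_coord (n : ℕ) (b : Bool) : IsClopen {x : Cantor | x n = b} := by
  have h : {x : Cantor | x n = b} = (fun x : Cantor => x n) ⁻¹' {b} := rfl
  rw [h]
  exact (isClopen_discrete {b}).preimage (continuous_apply n)

theorem not_totallyAvoids (hMA : MASigmaCentered) (hc : (ℵ₁ : Cardinal.{0}) < 𝔠) {X Y : Set Cantor}
    (hX : IsKDense 𝔠 X) (hY : IsKDense 𝔠 Y) : ¬ TotallyAvoids X Y := by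
  classical
  intro hav
  have hXc : #X = 𝔠 := hX.mk_eq
  have hYc : #Y = 𝔠 := hY.mk_eq
  -- a set `A ⊆ X` of size `ℵ₁` and an injection into `Y`
  obtain ⟨A, hAX, hA⟩ : ∃ A : Set Cantor, A ⊆ X ∧ #A = ℵ₁ := by
    obtain ⟨A, hA1, hA2⟩ := le_mk_iff_exists_subset.mp (hXc ▸ hc.le : ℵ₁ ≤ #X)
    exact ⟨A, hA1, hA2⟩
  obtain ⟨g⟩ : Nonempty (A ↪ Y) := by
    rw [← Cardinal.le_def, hA, hYc]
    exact hc.le
  let h : A → Cantor := fun x => g x
  have hinj : Function.Injective h := fun x y hxy => g.injective (Subtype.ext hxy)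
  obtain ⟨Q, hQ1, hQ2⟩ := sigma_continuous hMA (hA ▸ hc : #A < 𝔠) h
  -- one piece is uncountable
  obtain ⟨i, hi⟩ : ∃ i, ¬ (Q i).Countable := by
    by_contra hcon
    push Not at hcon
    have h1 : (univ : Set A).Countable := by
      refine (countable_iUnion hcon).mono (fun x _ => ?_)
      obtain ⟨i, hi⟩ := hQ1 x
      exact mem_iUnion.mpr ⟨i, hi⟩
    have h2 : #A ≤ ℵ₀ := by
      rw [← mk_univ]
      exact h1.le_aleph0
    rw [hA] at h2
    exact absurd h2 (not_le.mpr aleph0_lt_aleph_one)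
  -- split by the first coordinate
  obtain ⟨b, hb⟩ : ∃ b : Bool, ¬ {x ∈ Q i | x.1 0 = b}.Countable := by
    by_contra hcon
    push Not at hcon
    apply hi
    refine ((hcon true).union (hcon false)).mono (fun x hx => ?_)
    cases hx0 : x.1 0
    · exact Or.inr ⟨hx, hx0⟩
    · exact Or.inl ⟨hx, hx0⟩
  obtain ⟨y0⟩ : Nonempty Y := by
    rw [← mk_ne_zero_iff, hYc]
    exact continuum_ne_zero
  let B : Set Cantor := {x | x 0 = b}
  have hB : IsClopen B := isClopen_coord 0 b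
  let Z : Set Cantor := (Subtype.val '' {x ∈ Q i | x.1 0 = b}) ∪ (X ∩ Bᶜ)
  have hZX : Z ⊆ X := by
    rintro z (⟨x, -, rfl⟩ | ⟨hz, -⟩)
    · exact hAX x.2
    · exact hz
  have hBc : (Bᶜ).Nonempty := ⟨fun _ => !b, by
    show ¬ ((!b) = b)
    cases b <;> simp⟩
  have hZc : #Z = #X := by
    apply le_antisymm (mk_le_mk_of_subset hZX)
    rw [hXc, ← hX Bᶜ hB.compl.isOpen hBc]
    exact mk_le_mk_of_subset subset_union_right
  -- the function
  let f0 : Z → Y := fun z =>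
    if hz : ∃ x : A, x.1 = z.1 ∧ x ∈ Q i ∧ x.1 0 = b then g hz.choose else y0
  have hf0 : ∀ (x : A) (hx : x ∈ Q i) (hxb : x.1 0 = b),
      f0 ⟨x.1, Or.inl ⟨x, ⟨hx, hxb⟩, rfl⟩⟩ = g x := by
    intro x hx hxb
    have hz : ∃ x' : A, x'.1 = x.1 ∧ x' ∈ Q i ∧ x'.1 0 = b := ⟨x, rfl, hx, hxb⟩
    have h1 : f0 ⟨x.1, Or.inl ⟨x, ⟨hx, hxb⟩, rfl⟩⟩ = g hz.choose := dif_pos hz
    rw [h1]
    congr 1
    exact Subtype.ext hz.choose_spec.1
  have hf1 : ∀ z : Z, z.1 ∉ B → f0 z = y0 := by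
    intro z hz
    refine dif_neg ?_
    rintro ⟨x, hx1, -, hx3⟩
    apply hz
    show z.1 0 = b
    rw [← hx1]
    exact hx3
  have hcont : Continuous f0 := by
    rw [continuous_iff_continuousAt]
    intro z
    by_cases hz : z.1 ∈ B
    · -- near `z` the function is `h` on the piece
      have hzA : ∃ x : A, (x ∈ Q i ∧ x.1 0 = b) ∧ x.1 = z.1 := by
        rcases z.2 with ⟨x, hx, hxz⟩ | ⟨-, h2⟩
        · exact ⟨x, hx, hxz⟩
        · exact absurd hz h2
      obtain ⟨x, ⟨hx1, hx2⟩, hx3⟩ := hzA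
      have hzx : z = ⟨x.1, Or.inl ⟨x, ⟨hx1, hx2⟩, rfl⟩⟩ := Subtype.ext hx3.symm
      rw [ContinuousAt, tendsto_subtype_rng]
      have hcx : ContinuousWithinAt h (Q i) x := hQ2 i x hx1
      rw [hzx, hf0 x hx1 hx2]
      intro W hW
      have h2 := hcx hW
      rw [Filter.mem_map, mem_nhdsWithin_iff_exists_mem_nhds_inter] at h2
      obtain ⟨V, hV, hVW⟩ := h2
      rw [nhds_subtype, Filter.mem_comap] at hV
      obtain ⟨V', hV', hVV'⟩ := hV
      rw [Filter.mem_map, nhds_subtype, Filter.mem_comap]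
      refine ⟨V' ∩ B, Filter.inter_mem hV' (hB.isOpen.mem_nhds hx2), ?_⟩
      rintro w ⟨hw1, hw2⟩
      obtain ⟨x', ⟨hx1', hx2'⟩, hx3'⟩ : ∃ x' : A, (x' ∈ Q i ∧ x'.1 0 = b) ∧ x'.1 = w.1 := by
        rcases w.2 with ⟨x', hx', hxz'⟩ | ⟨-, h2⟩
        · exact ⟨x', hx', hxz'⟩
        · exact absurd hw2 h2
      have hwx : w = ⟨x'.1, Or.inl ⟨x', ⟨hx1', hx2'⟩, rfl⟩⟩ := Subtype.ext hx3'.symm
      show ((f0 w : Y) : Cantor) ∈ W
      rw [hwx, hf0 x' hx1' hx2']
      refine hVW ⟨hVV' ?_, hx1'⟩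
      show x'.1 ∈ V'
      rw [hx3']
      exact hw1
    · have h1 : f0 =ᶠ[𝓝 z] fun _ => y0 := by
        have h2 : {w : Z | w.1 ∈ Bᶜ} ∈ 𝓝 z :=
          (hB.compl.isOpen.preimage continuous_subtype_val).mem_nhds hz
        filter_upwards [h2] with w hw
        exact hf1 w hw
      exact continuousAt_const.congr h1.symm
  have hcount := hav Z hZX hZc f0 hcont
  apply hb
  have h3 : (g '' {x ∈ Q i | x.1 0 = b}).Countable := by
    refine hcount.mono ?_
    rintro _ ⟨x, ⟨hx1, hx2⟩, rfl⟩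
    exact ⟨_, hf0 x hx1 hx2⟩
  exact countable_of_injective_of_countable_image g.injective.injOn h3

end Pool.Agent.Lib.MP_24213f_lc
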