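import Pool.Agent.Lib.MP_24213f_lc.Defs

/-!
Under Martin's axiom for `σ`-centered preorders, each function from a set of fewer than `𝔠`
points of the Cantor space to the Cantor space is `σ`-continuous.
-/

set_option autoImplicit false

open Cardinal Set

namespace Pool.Agent.Lib.MP_24213f_lc

/-- The restriction of `x` to the first `n` coordinates. -/
def res (n : ℕ) (x : Cantor) : List Bool := List.ofFn (fun k : Fin n => x k)

theorem res_eq_iff {n : ℕ} {x y : Cantor} : res n x = res n y ↔ ∀ k < n, x k = y k := by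
  unfold res
  rw [List.ofFn_inj]
  constructor
  · intro h k hk
    exact congrFun h ⟨k, hk⟩
  · intro h
    funext k
    exact h k k.2

theorem continuous_mem_res (n : ℕ) (T : Finset (List Bool)) :
    Continuous (fun x : Cantor => decide (res n x ∈ T)) := by
  have h1 : Continuous (fun x : Cantor => (fun k : Fin n => x k)) :=
    continuous_pi fun k => continuous_apply _
  have h2 : Continuous (fun y : Fin n → Bool => decide (List.ofFn y ∈ T)) :=
    continuous_of_discreteTopology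
  exact h2.comp h1

/-- Finitely many points are separated by their restrictions to a common length. -/
theorem exists_sep (s : Finset Cantor) : ∃ n, ∀ x ∈ s, ∀ y ∈ s, res n x = res n y → x = y := by
  classical
  have h1 : ∀ p : Cantor × Cantor, ∃ k, p.1 ≠ p.2 → p.1 k ≠ p.2 k := by
    intro p
    by_cases h : p.1 = p.2
    · exact ⟨0, fun h2 => absurd h h2⟩
    · obtain ⟨k, hk⟩ := Function.ne_iff.mp h
      exact ⟨k, fun _ => hk⟩
  choose d hd using h1
  refine ⟨(s ×ˢ s).sup d + 1, fun x hx y hy hxy => ?_⟩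
  by_contra hne
  have h2 : d (x, y) < (s ×ˢ s).sup d + 1 :=
    Nat.lt_succ_of_le (Finset.le_sup (f := d) (Finset.mk_mem_product hx hy))
  exact hd (x, y) hne (res_eq_iff.mp hxy _ h2)

/-- A condition: the tuple `(i, j, n, T)` in `E` promises that on the `i`-th piece the `j`-th
coordinate of `h` is computed by `T` from the restriction to `n`; the pair `(x, i)` in `F` puts `x`
in the `i`-th piece. -/
structure Forc {A : Set Cantor} (h : A → Cantor) where
  /-- The promises about the pieces. -/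
  E : Finset (ℕ × ℕ × ℕ × Finset (List Bool))
  /-- The points put into the pieces. -/
  F : Finset (A × ℕ)
  ok : ∀ e ∈ E, ∀ v ∈ F, v.2 = e.1 → h v.1 e.2.1 = decide (res e.2.2.1 v.1.1 ∈ e.2.2.2)

variable {A : Set Cantor} {h : A → Cantor}

/-- The order: reverse inclusion. -/
instance forcPreorder : Preorder (Forc h) where
  le q p := p.E ⊆ q.E ∧ p.F ⊆ q.F
  le_refl p := ⟨Finset.Subset.refl _, Finset.Subset.refl _⟩
  le_trans r q p h1 h2 := ⟨h2.1.trans h1.1, h2.2.trans h1.2⟩

theorem le_iff {q p : Forc h} : q ≤ p ↔ p.E ⊆ q.E ∧ p.F ⊆ q.F := Iff.rfl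

instance : Nonempty (Forc h) := ⟨⟨∅, ∅, fun e he => absurd he (Finset.notMem_empty e)⟩⟩

theorem sigmaCentered : IsSigmaCentered (Forc h) := by
  classical
  obtain ⟨c, hc⟩ := Countable.exists_injective_nat (Finset (ℕ × ℕ × ℕ × Finset (List Bool)))
  refine ⟨fun n => {p | c p.E = n}, fun p => ⟨c p.E, rfl⟩, fun n s hs => ?_⟩
  by_cases hne : s.Nonempty
  · obtain ⟨p0, hp0⟩ := hne
    have hE : ∀ p ∈ s, p.E = p0.E := fun p hp => hc ((hs p hp).trans (hs p0 hp0).symm)
    refine ⟨⟨p0.E, s.biUnion (fun p => p.F), ?_⟩, ?_⟩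
    · intro e he v hv hve
      obtain ⟨p, hp, hvp⟩ := Finset.mem_biUnion.mp hv
      exact p.ok e (by rw [hE p hp]; exact he) v hvp hve
    · intro p hp
      exact ⟨by rw [hE p hp], fun v hv => Finset.mem_biUnion.mpr ⟨p, hp, hv⟩⟩
  · rw [Finset.not_nonempty_iff_eq_empty] at hne
    subst hne
    exact ⟨⟨∅, ∅, fun e he => absurd he (Finset.notMem_empty e)⟩,
      fun p hp => absurd hp (Finset.notMem_empty p)⟩

/-- The dense set of conditions deciding the `j`-th coordinate on the `i`-th piece. -/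
def DE (h : A → Cantor) (i j : ℕ) : Set (Forc h) := {p | ∃ n T, (i, j, n, T) ∈ p.E}

/-- The dense set of conditions putting `x` into a piece. -/
def DF (h : A → Cantor) (x : A) : Set (Forc h) := {p | ∃ i, (x, i) ∈ p.F}

theorem dense_DE (i j : ℕ) (p : Forc h) : ∃ q ∈ DE h i j, q ≤ p := by
  classical
  obtain ⟨n, hn⟩ := exists_sep (p.F.image (fun v => (v.1 : Cantor)))
  let T : Finset (List Bool) :=
    (p.F.filter (fun v => v.2 = i ∧ h v.1 j = true)).image (fun v => res n v.1)
  refine ⟨⟨insert (i, j, n, T) p.E, p.F, ?_⟩, ⟨n, T, Finset.mem_insert_self _ _⟩,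
    Finset.subset_insert _ _, Finset.Subset.refl _⟩
  intro e he v hv hve
  rcases Finset.mem_insert.mp he with rfl | he
  · have hve' : v.2 = i := hve
    show h v.1 j = decide (res n v.1.1 ∈ T)
    by_cases hv1 : h v.1 j = true
    · rw [hv1, eq_comm, decide_eq_true_iff]
      exact Finset.mem_image.mpr ⟨v, Finset.mem_filter.mpr ⟨hv, hve', hv1⟩, rfl⟩
    · rw [Bool.eq_false_iff.mpr hv1, eq_comm, decide_eq_false_iff_not]
      intro hT
      obtain ⟨w, hw, hwv⟩ := Finset.mem_image.mp hT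
      obtain ⟨hw1, hw2, hw3⟩ := Finset.mem_filter.mp hw
      have h1 : (w.1 : Cantor) = v.1 :=
        hn _ (Finset.mem_image_of_mem _ hw1) _ (Finset.mem_image_of_mem _ hv) hwv
      have h2 : w.1 = v.1 := Subtype.ext h1
      rw [h2] at hw3
      exact hv1 hw3
  · exact p.ok e he v hv hve

theorem dense_DF (x : A) (p : Forc h) : ∃ q ∈ DF h x, q ≤ p := by
  classical
  obtain ⟨i, hi⟩ := Infinite.exists_notMem_finset (p.E.image (fun e => e.1))
  refine ⟨⟨p.E, insert (x, i) p.F, ?_⟩, ⟨i, Finset.mem_insert_self _ _⟩,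
    Finset.Subset.refl _, Finset.subset_insert _ _⟩
  intro e he v hv hve
  rcases Finset.mem_insert.mp hv with rfl | hv
  · exact absurd (Finset.mem_image.mpr ⟨e, he, hve.symm⟩) hi
  · exact p.ok e he v hv hve

/-- Under Martin's axiom for `σ`-centered preorders, functions on sets of fewer than `𝔠` points
are `σ`-continuous. -/
theorem sigma_continuous (hMA : MASigmaCentered) (hA : #A < 𝔠) (h : A → Cantor) :
    ∃ Q : ℕ → Set A, (∀ x, ∃ i, x ∈ Q i) ∧ ∀ i, ContinuousOn h (Q i) := by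
  classical
  let 𝒟 : Set (Set (Forc h)) := range (fun v : ℕ × ℕ => DE h v.1 v.2) ∪ range (DF h)
  have hcard : #𝒟 < 𝔠 := by
    refine lt_of_le_of_lt (mk_union_le _ _) (add_lt_of_lt aleph0_le_continuum ?_ ?_)
    · exact lt_of_le_of_lt mk_range_le
        (lt_of_le_of_lt (mk_le_aleph0 (α := ℕ × ℕ)) aleph0_lt_continuum)
    · exact lt_of_le_of_lt mk_range_le hA
  obtain ⟨G, ⟨-, -, hdir⟩, hG⟩ := hMA (Forc h) sigmaCentered 𝒟 hcard (by
    rintro D (⟨v, rfl⟩ | ⟨x, rfl⟩) p
    · exact dense_DE _ _ p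
    · exact dense_DF x p)
  refine ⟨fun i => {x | ∃ p ∈ G, (x, i) ∈ p.F}, fun x => ?_, fun i => ?_⟩
  · obtain ⟨p, ⟨i, hi⟩, hpG⟩ := hG (DF h x) (Or.inr ⟨x, rfl⟩)
    exact ⟨i, p, hpG, hi⟩
  · rw [continuousOn_pi]
    intro j
    obtain ⟨p, ⟨n, T, hnT⟩, hpG⟩ := hG (DE h i j) (Or.inl ⟨(i, j), rfl⟩)
    have h1 : ContinuousOn (fun x : A => decide (res n x.1 ∈ T)) {x | ∃ p ∈ G, (x, i) ∈ p.F} :=
      ((continuous_mem_res n T).comp continuous_subtype_val).continuousOn
    refine h1.congr ?_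
    rintro x ⟨q, hqG, hxq⟩
    obtain ⟨r, hrG, hr1, hr2⟩ := hdir p hpG q hqG
    exact r.ok _ (hr1.1 hnT) _ (hr2.2 hxq) rfl

end Pool.Agent.Lib.MP_24213f_lc
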