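import Pool.Agent.Lib.MP_24213f_lc.NoTotal

/-!
Under Martin's axiom for `σ`-centered preorders there are two `𝔠`-dense sets which strongly avoid
one another.
-/

set_option autoImplicit false

open Cardinal Set Topology TopologicalSpace

namespace Pool.Agent.Lib.MP_24213f_lc

/-! ### Fewer than `𝔠` meager sets do not cover a nonempty open set -/

/-- The forcing with nonempty clopen subsets of `U`. -/
abbrev Cohen (U : Set Cantor) := {V : Set Cantor // IsClopen V ∧ V.Nonempty ∧ V ⊆ U}

instance (U : Set Cantor) : Countable (Cohen U) := by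
  have h1 : Countable (Clopens Cantor) := Clopens.countable_iff_secondCountable.mpr inferInstance
  have h2 : Function.Injective (fun V : Cohen U => (⟨V.1, V.2.1⟩ : Clopens Cantor)) := by
    intro V W h
    exact Subtype.ext (congrArg (fun C : Clopens Cantor => (C : Set Cantor)) h)
  exact h2.countable

theorem exists_clopen {U : Set Cantor} (hU : IsOpen U) (hne : U.Nonempty) :
    ∃ V : Set Cantor, IsClopen V ∧ V.Nonempty ∧ V ⊆ U := by
  obtain ⟨x, hx⟩ := hne
  obtain ⟨V, hV, hxV, hVU⟩ := compact_exists_isClopen_in_isOpen hU hx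
  exact ⟨V, hV, ⟨x, hxV⟩, hVU⟩

theorem exists_notMem_meagre (hMA : MASigmaCentered) {U : Set Cantor} (hU : IsOpen U)
    (hne : U.Nonempty) {ι : Type} (M : ι → Set Cantor) (hι : #ι < 𝔠)
    (hm : ∀ i, IsMeagre (M i)) : ∃ x ∈ U, ∀ i, x ∉ M i := by
  classical
  have h1 : ∀ i, ∃ C : ℕ → Set Cantor, (∀ n, IsNowhereDense (C n)) ∧ M i ⊆ ⋃ n, C n := by
    intro i
    obtain ⟨S, hS1, hS2, hS3⟩ := isMeagre_iff_countable_union_isNowhereDense.mp (hm i)
    obtain ⟨C, hC⟩ := (hS2.insert ∅).exists_eq_range (insert_nonempty _ _)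
    refine ⟨C, fun n => ?_, fun x hx => ?_⟩
    · have h2 : C n ∈ insert ∅ S := hC ▸ mem_range_self n
      rcases h2 with h2 | h2
      · rw [h2]; exact isNowhereDense_empty
      · exact hS1 _ h2
    · obtain ⟨t, ht, hxt⟩ := hS3 hx
      have h2 : t ∈ range C := hC ▸ (Or.inr ht : t ∈ insert ∅ S)
      obtain ⟨n, rfl⟩ := h2
      exact mem_iUnion.mpr ⟨n, hxt⟩
  choose C hC1 hC2 using h1
  obtain ⟨V0, hV0⟩ := exists_clopen hU hne
  have : Nonempty (Cohen U) := ⟨⟨V0, hV0⟩⟩
  have hsc : IsSigmaCentered (Cohen U) := by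
    obtain ⟨c, hc⟩ := Countable.exists_injective_nat (Cohen U)
    refine ⟨fun n => {p | c p = n}, fun p => ⟨c p, rfl⟩, fun n F hF => ?_⟩
    by_cases hne : F.Nonempty
    · obtain ⟨p0, hp0⟩ := hne
      exact ⟨p0, fun p hp => (hc ((hF p hp).trans (hF p0 hp0).symm)).ge⟩
    · rw [Finset.not_nonempty_iff_eq_empty] at hne
      subst hne
      exact ⟨⟨V0, hV0⟩, fun p hp => absurd hp (Finset.notMem_empty p)⟩
  let D : ι × ℕ → Set (Cohen U) := fun v => {V | Disjoint V.1 (closure (C v.1 v.2))}
  have hcard : #(range D) < 𝔠 := by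
    refine lt_of_le_of_lt mk_range_le ?_
    rw [mk_prod, lift_id, lift_id]
    exact mul_lt_of_lt aleph0_le_continuum hι (by rw [mk_nat]; exact aleph0_lt_continuum)
  obtain ⟨G, ⟨hGne, -, hGd⟩, hG⟩ := hMA (Cohen U) hsc (range D) hcard (by
    rintro _ ⟨v, rfl⟩ V
    have h2 : (V.1 \ closure (C v.1 v.2)).Nonempty := by
      by_contra hcon
      rw [not_nonempty_iff_eq_empty, sdiff_eq_empty] at hcon
      have h3 : V.1 ⊆ interior (closure (C v.1 v.2)) := interior_maximal hcon V.2.1.isOpen
      rw [hC1 v.1 v.2] at h3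
      obtain ⟨x, hx⟩ := V.2.2.1
      exact h3 hx
    obtain ⟨W, hW1, hW2, hW3⟩ := exists_clopen (V.2.1.isOpen.sdiff isClosed_closure) h2
    refine ⟨⟨W, hW1, hW2, hW3.trans (sdiff_subset.trans V.2.2.2)⟩, ?_, hW3.trans sdiff_subset⟩
    exact disjoint_left.mpr (fun x hx => (hW3 hx).2))
  have hGne' : Nonempty G := hGne.to_subtype
  obtain ⟨x, hx⟩ := IsCompact.nonempty_iInter_of_directed_nonempty_isCompact_isClosed
    (fun p : G => p.1.1) (by
      intro p q
      obtain ⟨r, hr, hr1, hr2⟩ := hGd p.1 p.2 q.1 q.2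
      exact ⟨⟨r, hr⟩, hr1, hr2⟩) (fun p => p.1.2.2.1) (fun p => p.1.2.1.isClosed.isCompact)
    (fun p => p.1.2.1.isClosed)
  rw [mem_iInter] at hx
  refine ⟨x, ?_, fun i hi => ?_⟩
  · obtain ⟨p, hp⟩ := hGne
    exact p.2.2.2 (hx ⟨p, hp⟩)
  · obtain ⟨n, hn⟩ := mem_iUnion.mp (hC2 i hi)
    obtain ⟨p, hp1, hp2⟩ := hG (D (i, n)) ⟨_, rfl⟩
    exact disjoint_left.mp hp1 (hx ⟨p, hp2⟩) (subset_closure hn)

/-! ### Codes for continuous functions -/

/-- A countable basis of nonempty open sets. -/
abbrev Basis := ↥(countableBasis Cantor)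

instance : Countable Basis := (countable_countableBasis Cantor).to_subtype

/-- A code for a continuous function on a subset of the Cantor space. -/
abbrev Code := ℕ → Bool → Set Basis

/-- The open set given by the part `(n, b)` of the code. -/
def W (c : Code) (n : ℕ) (b : Bool) : Set Cantor := ⋃ k ∈ c n b, (k : Set Cantor)

/-- The code `c` gives the value `y` at `x`. -/
def R (c : Code) (x y : Cantor) : Prop := ∀ n, x ∈ W c n (y n) ∧ x ∉ W c n (!(y n))

theorem isOpen_W (c : Code) (n : ℕ) (b : Bool) : IsOpen (W c n b) :=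
  isOpen_biUnion fun k _ => isOpen_of_mem_countableBasis k.2

theorem R_unique {c : Code} {x y y' : Cantor} (h : R c x y) (h' : R c x y') : y = y' := by
  funext n
  by_contra hne
  have h1 : y' n = !(y n) := by
    cases hy : y n <;> cases hy' : y' n <;> simp_all
  have h2 := (h' n).1
  rw [h1] at h2
  exact (h n).2 h2

theorem exists_code (Z : Set Cantor) (f : Z → Cantor) (hf : Continuous f) :
    ∃ c : Code, ∀ z : Z, R c z (f z) := by
  classical
  have h1 : ∀ n b, ∃ V : Set Cantor, IsOpen V ∧ ∀ z : Z, z.1 ∈ V ↔ f z n = b := by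
    intro n b
    have h2 : IsOpen {z : Z | f z n = b} :=
      (isClopen_coord n b).isOpen.preimage hf
    obtain ⟨V, hV, hVZ⟩ := isOpen_induced_iff.mp h2
    refine ⟨V, hV, fun z => ?_⟩
    have h3 : z ∈ Subtype.val ⁻¹' V ↔ z ∈ {z : Z | f z n = b} := by rw [hVZ]
    exact h3
  choose V hV1 hV2 using h1
  have hW : ∀ n b, W (fun n b => {k : Basis | (k : Set Cantor) ⊆ V n b}) n b = V n b := by
    intro n b
    apply Subset.antisymm
    · intro x hx
      obtain ⟨k, hk, hxk⟩ := mem_iUnion₂.mp hx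
      exact hk hxk
    · intro x hx
      obtain ⟨k, hk1, hk2, hk3⟩ :=
        (isBasis_countableBasis Cantor).exists_subset_of_mem_open hx (hV1 n b)
      exact mem_iUnion₂.mpr ⟨⟨k, hk1⟩, hk3, hk2⟩
  refine ⟨fun n b => {k : Basis | (k : Set Cantor) ⊆ V n b}, fun z n => ?_⟩
  rw [hW, hW, hV2, hV2]
  exact ⟨rfl, by cases f z n <;> simp⟩

theorem measurableSet_fibre (c : Code) (y : Cantor) : MeasurableSet {x | R c x y} := by
  have h : {x | R c x y} = ⋂ n, (W c n (y n) \ W c n (!(y n))) := by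
    ext x
    simp only [mem_ofPred_eq, mem_iInter, mem_sdiff]
    rfl
  rw [h]
  exact MeasurableSet.iInter fun n => (isOpen_W c n _).measurableSet.diff
    (isOpen_W c n _).measurableSet

/-- Only countably many values of a code have a nonmeager fibre. -/
theorem countable_nonmeagre (c : Code) : {y | ¬ IsMeagre {x | R c x y}}.Countable := by
  classical
  have h1 : ∀ y : Cantor, ∃ k : Basis, ¬ IsMeagre {x | R c x y} →
      IsMeagre ((k : Set Cantor) \ {x | R c x y}) := by
    intro y
    have hk0 : Nonempty Basis := by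
      obtain ⟨k, hk, -⟩ := (isBasis_countableBasis Cantor).exists_subset_of_mem_open
        (mem_univ (fun _ => true : Cantor)) isOpen_univ
      exact ⟨⟨k, hk⟩⟩
    by_cases hy : IsMeagre {x | R c x y}
    · exact ⟨hk0.some, fun h => absurd hy h⟩
    obtain ⟨u, hu1, hu2⟩ := (measurableSet_fibre c y).residualEq_isOpen
    have hune : u.Nonempty := by
      by_contra hcon
      rw [not_nonempty_iff_eq_empty] at hcon
      subst hcon
      apply hy
      show {x | R c x y}ᶜ ∈ residual Cantor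
      filter_upwards [hu2] with x hx
      intro hxR
      have h2 : x ∈ (∅ : Set Cantor) := (eq_iff_iff.mp hx).mp hxR
      exact h2
    obtain ⟨x, hx⟩ := hune
    obtain ⟨k, hk1, hk2, hk3⟩ :=
      (isBasis_countableBasis Cantor).exists_subset_of_mem_open hx hu1
    refine ⟨⟨k, hk1⟩, fun _ => ?_⟩
    show (k \ {x | R c x y})ᶜ ∈ residual Cantor
    filter_upwards [hu2] with z hz
    rintro ⟨hz1, hz2⟩
    exact hz2 ((eq_iff_iff.mp hz).mpr (hk3 hz1))
  choose k hk using h1
  refine MapsTo.countable_of_injOn (t := (univ : Set Basis)) (f := k) (mapsTo_univ _ _) ?_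
    countable_univ
  intro y hy y' hy' hyy'
  by_contra hne
  have h2 := hk y hy
  have h3 := hk y' hy'
  rw [← hyy'] at h3
  refine not_isMeagre_of_isOpen (isOpen_of_mem_countableBasis (k y).2)
    (nonempty_of_mem_countableBasis (k y).2) ((h2.union h3).mono ?_)
  intro x hx
  by_cases hxy : R c x y
  · exact Or.inr ⟨hx, fun h => hne (R_unique hxy h)⟩
  · exact Or.inl ⟨hx, hxy⟩

theorem isMeagre_singleton (x : Cantor) : IsMeagre {x} := by
  apply IsNowhereDense.isMeagre
  rw [IsNowhereDense, closure_singleton]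
  by_contra hcon
  have h1 : (interior {x} : Set Cantor).Nonempty := nonempty_iff_ne_empty.mpr hcon
  obtain ⟨y, hy⟩ := h1
  have h2 : y = x := (interior_subset (s := ({x} : Set Cantor))) hy
  have h3 : {x} ∈ 𝓝 x := by
    rw [h2] at hy
    exact mem_interior_iff_mem_nhds.mp hy
  have h4 : Filter.Tendsto (fun n => Function.update x n (!(x n))) Filter.atTop (𝓝 x) := by
    rw [tendsto_pi_nhds]
    intro m
    apply tendsto_const_nhds.congr'
    filter_upwards [Filter.eventually_gt_atTop m] with n hn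
    rw [Function.update_of_ne hn.ne]
  obtain ⟨n, hn⟩ := (h4.eventually_mem h3).exists
  have h5 : Function.update x n (!(x n)) = x := hn
  have h6 := congrFun h5 n
  rw [Function.update_self] at h6
  cases hx : x n <;> simp_all

theorem mk_code_le : #Code ≤ 𝔠 := by
  have h1 : #(Set Basis) ≤ 𝔠 := by
    rw [mk_set, ← two_power_aleph0]
    exact power_le_power_left two_ne_zero (mk_le_aleph0)
  have h2 : #(Bool → Set Basis) ≤ 𝔠 := by
    rw [← power_def]
    calc #(Set Basis) ^ #Bool ≤ 𝔠 ^ ℵ₀ :=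
          (power_le_power_right h1).trans (power_le_power_left continuum_ne_zero mk_le_aleph0)
      _ = 𝔠 := continuum_power_aleph0
  have h3 : #Code = #(Bool → Set Basis) ^ #ℕ := (power_def _ _).symm
  rw [h3, mk_nat]
  calc #(Bool → Set Basis) ^ ℵ₀ ≤ 𝔠 ^ ℵ₀ := power_le_power_right h2
    _ = 𝔠 := continuum_power_aleph0

/-! ### The recursion -/

/-- The index set, well-ordered in type `𝔠`. -/
abbrev Idx := (continuum.{0}).ord.ToType

theorem exists_rec {I α : Type} [LinearOrder I] [WellFoundedLT I]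
    (P : ∀ i : I, (∀ j, j < i → α) → α → Prop)
    (h : ∀ i g, ∃ a, P i g a) : ∃ z : I → α, ∀ i, P i (fun j _ => z j) (z i) := by
  classical
  choose F hF using h
  refine ⟨(wellFounded_lt (α := I)).fix F, fun i => ?_⟩
  have h1 : (wellFounded_lt (α := I)).fix F i =
      F i (fun j _ => (wellFounded_lt (α := I)).fix F j) := WellFounded.fix_eq _ _ _
  rw [h1]
  exact hF i _

theorem exists_sequence (hMA : MASigmaCentered) (e : Idx → Code)
    (b : Idx → Basis) :
    ∃ z : Idx → Cantor, ∀ i, z i ∈ (b i : Set Cantor) ∧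
      ∀ β < i, ∀ γ < i, z i ≠ z γ ∧ ¬ R (e β) (z γ) (z i) ∧
        (IsMeagre {x | R (e β) x (z γ)} → ¬ R (e β) (z i) (z γ)) := by
  classical
  refine exists_rec (fun i g a => a ∈ (b i : Set Cantor) ∧
      ∀ β < i, ∀ γ, ∀ hγ : γ < i, a ≠ g γ hγ ∧ ¬ R (e β) (g γ hγ) a ∧
        (IsMeagre {x | R (e β) x (g γ hγ)} → ¬ R (e β) a (g γ hγ))) ?_
  intro i g
  let M : Iio i × Iio i → Set Cantor := fun v =>
    ({g v.2.1 v.2.2} ∪ {z | R (e v.1.1) (g v.2.1 v.2.2) z}) ∪
      {z | R (e v.1.1) z (g v.2.1 v.2.2) ∧ IsMeagre {x | R (e v.1.1) x (g v.2.1 v.2.2)}}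
  have hM : ∀ v, IsMeagre (M v) := by
    intro v
    refine ((isMeagre_singleton _).union ?_).union ?_
    · by_cases hne : {z | R (e v.1.1) (g v.2.1 v.2.2) z}.Nonempty
      · obtain ⟨y, hy⟩ := hne
        exact (isMeagre_singleton y).mono (fun z hz => R_unique hz hy)
      · rw [not_nonempty_iff_eq_empty] at hne
        rw [hne]
        exact IsMeagre.empty
    · by_cases hm : IsMeagre {x | R (e v.1.1) x (g v.2.1 v.2.2)}
      · exact hm.mono (fun z hz => hz.1)
      · have h1 : {z | R (e v.1.1) z (g v.2.1 v.2.2) ∧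
            IsMeagre {x | R (e v.1.1) x (g v.2.1 v.2.2)}} = ∅ :=
          eq_empty_of_forall_notMem (fun z hz => hm hz.2)
        rw [h1]
        exact IsMeagre.empty
  have hcard : #(Iio i × Iio i) < 𝔠 := by
    rw [mk_prod, lift_id]
    exact mul_lt_of_lt aleph0_le_continuum (mk_Iio_toType_ord_lt i) (mk_Iio_toType_ord_lt i)
  obtain ⟨a, ha1, ha2⟩ := exists_notMem_meagre hMA (isOpen_of_mem_countableBasis (b i).2)
    (nonempty_of_mem_countableBasis (b i).2) M hcard hM
  refine ⟨a, ha1, fun β hβ γ hγ => ?_⟩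
  have h1 := ha2 (⟨β, hβ⟩, ⟨γ, hγ⟩)
  refine ⟨fun h => h1 (Or.inl (Or.inl h)), fun h => h1 (Or.inl (Or.inr h)),
    fun hm h => h1 (Or.inr ⟨h, hm⟩)⟩

theorem exists_stronglyAvoiding (hMA : MASigmaCentered) :
    ∃ X Y : Set Cantor, IsKDense 𝔠 X ∧ IsKDense 𝔠 Y ∧ StronglyAvoids X Y ∧
      StronglyAvoids Y X := by
  classical
  have hI : #(Idx) = 𝔠 := mk_ord_toType continuum.{0}
  -- all codes
  obtain ⟨e, he⟩ : ∃ e : Idx → Code, Function.Surjective e := by
    obtain ⟨j⟩ : Nonempty (Code ↪ Idx) := by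
      rw [← Cardinal.le_def, hI]
      exact mk_code_le
    exact ⟨Function.invFun j, Function.invFun_surjective j.injective⟩
  -- the labels
  have hk0 : Nonempty Basis := by
    obtain ⟨k, hk, -⟩ := (isBasis_countableBasis Cantor).exists_subset_of_mem_open
      (mem_univ (fun _ => true : Cantor)) isOpen_univ
    exact ⟨⟨k, hk⟩⟩
  obtain ⟨φ⟩ : Nonempty (Idx ≃ Idx × (Basis × Bool)) := by
    rw [← Cardinal.eq, mk_prod, lift_id, lift_id, hI]
    exact (mul_eq_left aleph0_le_continuum
      ((mk_le_aleph0 (α := Basis × Bool)).trans aleph0_le_continuum)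
      (mk_ne_zero _)).symm
  obtain ⟨z, hz⟩ := exists_sequence hMA e (fun i => (φ i).2.1)
  have hzinj : Function.Injective z := by
    intro i j hij
    rcases lt_trichotomy i j with h | h | h
    · exact absurd hij.symm ((hz j).2 i h i h).1
    · exact h
    · exact absurd hij ((hz i).2 j h j h).1
  let X : Bool → Set Cantor := fun t => {x | ∃ i, (φ i).2.2 = t ∧ z i = x}
  have hdense : ∀ t, IsKDense 𝔠 (X t) := by
    intro t U hU hne
    apply le_antisymm
    · calc #(X t ∩ U : Set Cantor) ≤ #Cantor := mk_set_le _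
        _ = 𝔠 := mk_cantor
    · obtain ⟨x, hx⟩ := hne
      obtain ⟨k, hk1, hk2, hk3⟩ :=
        (isBasis_countableBasis Cantor).exists_subset_of_mem_open hx hU
      have hmem : ∀ j, z (φ.symm (j, (⟨k, hk1⟩, t))) ∈ X t ∩ U := by
        intro j
        refine ⟨⟨_, ?_, rfl⟩, hk3 ?_⟩
        · rw [Equiv.apply_symm_apply]
        · have h1 := (hz (φ.symm (j, (⟨k, hk1⟩, t)))).1
          rw [Equiv.apply_symm_apply] at h1
          exact h1
      have hinj : Function.Injective
          (fun j : Idx => (⟨_, hmem j⟩ : (X t ∩ U : Set Cantor))) := by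
        intro j j' hjj
        have h1 := φ.symm.injective (hzinj (congrArg Subtype.val hjj))
        exact (Prod.ext_iff.mp h1).1
      have h2 := mk_le_of_injective hinj
      rwa [hI] at h2
  have hav : ∀ t t', t ≠ t' → StronglyAvoids (X t) (X t') := by
    intro t t' htt' Z hZ hZc f hf
    rw [(hdense t).mk_eq]
    obtain ⟨c, hc⟩ := exists_code Z (fun x => (f x : Cantor)) (continuous_subtype_val.comp hf)
    obtain ⟨β, rfl⟩ := he c
    -- all values off a small set are among countably many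
    let S1 : Set Cantor := {y | ¬ IsMeagre {x | R (e β) x y}}
    let T1 : Set Cantor := {y | ∃ α : Iic β, ∃ h : z α ∈ Z, y = f ⟨z α, h⟩}
    have hT1 : #T1 < 𝔠 := by
      have h1 : #(Iic β) < 𝔠 := by
        have h2 : Iic β = Iio β ∪ {β} := by
          ext x
          simp only [mem_Iic, mem_union, mem_Iio, mem_singleton_iff]
          exact le_iff_lt_or_eq
        rw [h2]
        refine lt_of_le_of_lt (mk_union_le _ _) (add_lt_of_lt aleph0_le_continuum
          (mk_Iio_toType_ord_lt β) ?_)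
        rw [mk_singleton]
        exact one_lt_aleph0.trans aleph0_lt_continuum
      let G : Iic β → Cantor := fun α => if h : z α ∈ Z then f ⟨z α, h⟩ else fun _ => true
      have h3 : T1 ⊆ range G := by
        rintro y ⟨α, h, rfl⟩
        exact ⟨α, dif_pos h⟩
      exact lt_of_le_of_lt (mk_le_mk_of_subset h3) (lt_of_le_of_lt mk_range_le h1)
    have hS1 : #S1 < 𝔠 :=
      lt_of_le_of_lt (countable_nonmeagre (e β)).le_aleph0 aleph0_lt_continuum
    have hsub : Subtype.val '' (range f) ⊆ S1 ∪ T1 := by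
      rintro _ ⟨_, ⟨x, rfl⟩, rfl⟩
      obtain ⟨α, hα1, hα2⟩ := hZ x.2
      obtain ⟨γ, hγ1, hγ2⟩ := (f x).2
      have hαγ : α ≠ γ := by
        rintro rfl
        exact htt' (hα1.symm.trans hγ1)
      rcases le_or_gt α β with hle | hlt
      · right
        refine ⟨⟨α, hle⟩, ?_, ?_⟩
        · show z α ∈ Z
          rw [hα2]
          exact x.2
        · have h1 : (⟨z α, by rw [hα2]; exact x.2⟩ : Z) = x := Subtype.ext hα2
          show ((f x : X t') : Cantor) = f ⟨z α, _⟩
          rw [h1]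
      · left
        show ¬ IsMeagre {x' | R (e β) x' (f x)}
        intro hm
        have hR := hc x
        rw [← hα2, ← hγ2] at hR
        rw [← hγ2] at hm
        rcases lt_or_gt_of_ne hαγ with h | h
        · exact ((hz γ).2 β (hlt.trans h) α h).2.1 hR
        · exact ((hz α).2 β hlt γ h).2.2 hm hR
    calc #(range f) = #(Subtype.val '' (range f) : Set Cantor) :=
          (mk_image_eq Subtype.val_injective).symm
      _ ≤ #(S1 ∪ T1 : Set Cantor) := mk_le_mk_of_subset hsub
      _ ≤ #S1 + #T1 := mk_union_le _ _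
      _ < 𝔠 := add_lt_of_lt aleph0_le_continuum hS1 hT1
  exact ⟨X true, X false, hdense true, hdense false, hav true false (by simp),
    hav false true (by simp)⟩

end Pool.Agent.Lib.MP_24213f_lc
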